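import Mathlib
import Pool.Agent.Helper316.Invol3

set_option autoImplicit false

namespace Pool.Agent.Results.MP_c3e981_ag.Gap

/-- For every `n`, every automorphism `F` of `ℂ[x_1, …, x_n]` with `F ∘ F = id` is conjugate, by some
automorphism `G`, to one sending each variable to a homogeneous linear form, provided that either
every `F(x_i)` has total degree at most two, or, for some `d ≥ 2` and some point `p`, every monomial
of every coordinate `F(x_i)`, expanded around `p` and with the constant `p_i` subtracted, has degree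
one or a degree between `d` and `2 d - 2`. -/
theorem result :
    ∀ n : ℕ,
      ∀ F : MvPolynomial (Fin n) ℂ ≃ₐ[ℂ] MvPolynomial (Fin n) ℂ,
        (∀ q : MvPolynomial (Fin n) ℂ, F (F q) = q) →
        ((∀ i : Fin n, (F (MvPolynomial.X i : MvPolynomial (Fin n) ℂ)).totalDegree ≤ 2) ∨
          (∃ d : ℕ, 2 ≤ d ∧ ∃ p : Fin n → ℂ, ∀ i : Fin n,
            ∀ s ∈ (MvPolynomial.aeval (fun m => MvPolynomial.X m + MvPolynomial.C (p m))
                (F (MvPolynomial.X i : MvPolynomial (Fin n) ℂ)) - MvPolynomial.C (p i) :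
                  MvPolynomial (Fin n) ℂ).support,
              s.degree = 1 ∨ (d ≤ s.degree ∧ s.degree ≤ 2 * d - 2))) →
        ∃ G : MvPolynomial (Fin n) ℂ ≃ₐ[ℂ] MvPolynomial (Fin n) ℂ,
          ∀ i : Fin n,
            (G.symm (F (G (MvPolynomial.X i : MvPolynomial (Fin n) ℂ)))).IsHomogeneous 1 := by
  intro n F hF h
  rcases h with hdeg | ⟨d, hd, p, hdeg⟩
  · exact Pool.Agent.Helper316.Invol2.main F hF hdeg
  · exact Pool.Agent.Helper316.Invol3.gap_at d hd F hF p hdeg

end Pool.Agent.Results.MP_c3e981_ag.Gap
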