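import Mathlib
import Pool.Agent.Helper316.Invol2

set_option autoImplicit false

namespace Pool.Agent.Results.MP_c3e981_ag.Homogeneous

/-- For every `n`, every automorphism `F` of `ℂ[x_1, …, x_n]` with `F ∘ F = id` is conjugate, by some
automorphism `G`, to one sending each variable to a homogeneous linear form, provided that either
every `F(x_i)` has total degree at most two, or, for one `d ≥ 2`, every `F(x_i)` is the sum of a
linear form and of a form of degree `d`. -/
theorem result :
    ∀ n : ℕ,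
      ∀ F : MvPolynomial (Fin n) ℂ ≃ₐ[ℂ] MvPolynomial (Fin n) ℂ,
        (∀ p : MvPolynomial (Fin n) ℂ, F (F p) = p) →
        ((∀ i : Fin n, (F (MvPolynomial.X i : MvPolynomial (Fin n) ℂ)).totalDegree ≤ 2) ∨
          (∃ d : ℕ, 2 ≤ d ∧ ∀ i : Fin n, ∃ l h : MvPolynomial (Fin n) ℂ,
            l.IsHomogeneous 1 ∧ h.IsHomogeneous d ∧
              F (MvPolynomial.X i : MvPolynomial (Fin n) ℂ) = l + h)) →
        ∃ G : MvPolynomial (Fin n) ℂ ≃ₐ[ℂ] MvPolynomial (Fin n) ℂ,
          ∀ i : Fin n,
            (G.symm (F (G (MvPolynomial.X i : MvPolynomial (Fin n) ℂ)))).IsHomogeneous 1 := by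
  intro n F hF h
  rcases h with hdeg | ⟨d, hd, hdeg⟩
  · exact Pool.Agent.Helper316.Invol2.main F hF hdeg
  · exact Pool.Agent.Helper316.Invol2.homog d hd F hF hdeg

end Pool.Agent.Results.MP_c3e981_ag.Homogeneous
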