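import Mathlib
import Pool.Agent.Helper316.Invol

set_option autoImplicit false

namespace Pool.Agent.Results.MP_c3e981_ag.Quadratic

/-- For every `n`, every automorphism `F` of `ℂ[x_1, …, x_n]` with `F ∘ F = id` which sends every
variable to a polynomial of degree at most two is conjugate, by some automorphism `G`, to one sending
each variable to a homogeneous linear form. -/
theorem result :
    ∀ n : ℕ,
      ∀ F : MvPolynomial (Fin n) ℂ ≃ₐ[ℂ] MvPolynomial (Fin n) ℂ,
        (∀ p : MvPolynomial (Fin n) ℂ, F (F p) = p) →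
        (∀ i : Fin n, (F (MvPolynomial.X i : MvPolynomial (Fin n) ℂ)).totalDegree ≤ 2) →
        ∃ G : MvPolynomial (Fin n) ℂ ≃ₐ[ℂ] MvPolynomial (Fin n) ℂ,
          ∀ i : Fin n,
            (G.symm (F (G (MvPolynomial.X i : MvPolynomial (Fin n) ℂ)))).IsHomogeneous 1 := by
  intro n F hF hdeg
  exact Pool.Agent.Helper316.Invol.main F hF hdeg

end Pool.Agent.Results.MP_c3e981_ag.Quadratic
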